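import Pool.Agent.Y262.EL.Stm

/-!
# Project EL: continuously differentiable functions on the surface
-/

set_option autoImplicit false

open Set Filter Topology MeasureTheory
open scoped ContDiff

noncomputable section

namespace Pool.Agent.Y585.EL

open Pool.Agent.Y262.EG Pool.Agent.Y262.EX Pool.Agent.Y262.EL

/-- holomorphic functions are smooth in the real sense -/
theorem hol_smooth {f : ℂ → ℂ} {O : Set ℂ} (hO : IsOpen O) (hf : DifferentiableOn ℂ f O) {z : ℂ}
    (hz : z ∈ O) : ContDiffAt ℝ 1 f z :=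
  ((hf.contDiffOn hO).contDiffAt (hO.mem_nhds hz) : ContDiffAt ℂ 1 f z).restrict_scalars ℝ

/-- the local inverse of a holomorphic function -/
theorem hol_inv {f : ℂ → ℂ} {O : Set ℂ} (hO : IsOpen O) (hf : DifferentiableOn ℂ f O) {z : ℂ}
    (hz : z ∈ O) (hd : deriv f z ≠ 0) :
    ∃ c : ℂ → ℂ, ContDiffAt ℝ 1 c (f z) ∧ c (f z) = z ∧ ∀ᶠ y in 𝓝 (f z), f (c y) = y := by
  have h1 : ContDiffAt ℂ 1 f z := (hf.contDiffOn hO).contDiffAt (hO.mem_nhds hz)
  have hs : HasStrictDerivAt f (deriv f z) z := by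
    have := h1.hasStrictDerivAt one_ne_zero
    exact this
  have hsf := hs.hasStrictFDerivAt_equiv hd
  have hn : (1 : WithTop ℕ∞) ≠ 0 := one_ne_zero
  refine ⟨hsf.localInverse f _ z, ?_, ?_, ?_⟩
  · have := h1.to_localInverse hsf.hasFDerivAt hn
    exact this.restrict_scalars ℝ
  · exact hsf.localInverse_apply_image
  · exact hsf.eventually_right_inverse

theorem c1T : StC1 := by
  intro M P _ _ _ _ _ _ Ω φ pr q D μ hU hS hC F
  constructor
  · intro hF z hz
    obtain ⟨i, hi⟩ := hS.cover (pr z)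
    obtain ⟨b, hb, hb'⟩ := hC i
    have hT : D.φ i (pr z) ∈ D.T i := ⟨pr z, hi, rfl⟩
    obtain ⟨hbO, hbp, hbd, -⟩ := hb' _ hT
    rw [hS.left i _ hi] at hbp
    obtain ⟨θ', r, γ, hr, hrO, hγ, hγz, hγ', -⟩ := hU.deck z hz _ hbO hbp 0
    simp only at hr hrO hγ hγz hγ'
    obtain ⟨c, hc, hcz, hcr⟩ := hol_inv (hS.openT i) hb hT hbd
    have hγs : ContDiffAt ℝ 1 γ z := hol_smooth Metric.isOpen_ball hγ (Metric.mem_ball_self hr)
    have hFi : ContDiffAt ℝ 1 (fun w => F (D.ψ i w)) (D.φ i (pr z)) :=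
      (hF i).contDiffAt ((hS.openT i).mem_nhds hT)
    have hcγ : ContDiffAt ℝ 1 (fun w => c (γ w)) z := by
      have : ContDiffAt ℝ 1 c (γ z) := by rw [hγz]; exact hc
      exact this.comp z hγs
    have hcγz : c (γ z) = D.φ i (pr z) := by rw [hγz]; exact hcz
    have hcomp : ContDiffAt ℝ 1 (fun w => F (D.ψ i (c (γ w)))) z := by
      have : ContDiffAt ℝ 1 (fun w => F (D.ψ i w)) (c (γ z)) := by rw [hcγz]; exact hFi
      exact ContDiffAt.comp (f := fun w => c (γ w)) (g := fun w => F (D.ψ i w)) z this hcγ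
    refine ContDiffAt.contDiffWithinAt ?_
    refine hcomp.congr_of_eventuallyEq ?_
    have e1 : ∀ᶠ w in 𝓝 z, w ∈ Metric.ball z r := Metric.ball_mem_nhds z hr
    have e2 : ∀ᶠ w in 𝓝 z, b (c (γ w)) = γ w := by
      have : Tendsto γ (𝓝 z) (𝓝 (b (D.φ i (pr z)))) := by
        have := hγs.continuousAt.tendsto
        rwa [hγz] at this
      exact this.eventually hcr
    have e3 : ∀ᶠ w in 𝓝 z, c (γ w) ∈ D.T i := by
      have := hcγ.continuousAt.tendsto
      rw [hcγz] at this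
      exact this.eventually ((hS.openT i).mem_nhds hT)
    filter_upwards [e1, e2, e3] with w h1 h2 h3
    obtain ⟨-, h4, -, -⟩ := hγ' w h1
    obtain ⟨-, h5, -, -⟩ := hb' _ h3
    rw [h5, h2, h4]
  · intro hF i
    obtain ⟨b, hb, hb'⟩ := hC i
    have hbs : ContDiffOn ℝ 1 b (D.T i) := fun z hz =>
      (hol_smooth (hS.openT i) hb hz).contDiffWithinAt
    have := hF.comp hbs (fun z hz => (hb' z hz).1)
    refine this.congr ?_
    intro z hz
    simp only [Function.comp]
    rw [(hb' z hz).2.1]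

end Pool.Agent.Y585.EL
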